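import Mathlib

/-!
Definitions used in the statement on uniquely ergodic models of isometric extensions of abelian
distal systems.
-/

open MeasureTheory

namespace Pool.Agent.Helper40.ZQP

variable {Y : Type} [MeasurableSpace Y]

/-- There are measurable functions `u k` of modulus one and measurable vector functions `v j` on `Y`
which together separate the points of a set of full measure. For almost all `y` the quotient of
`u k (S y)` and `u k y` is a measurable function `f k` of the values `u i y` with `i < k`, and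
`v j (S y)` is the image of `v j y` under a unitary matrix `P j` which is a measurable function of
the values `u i y` with `i < m j`. -/
def Tower (S : Y → Y) (ν : Measure Y) : Prop :=
  ∃ (u : ℕ → Y → ℂ) (f : ∀ k : ℕ, (Fin k → ℂ) → ℂ) (d m : ℕ → ℕ)
    (v : ∀ j : ℕ, Y → Fin (d j) → ℂ)
    (P : ∀ j : ℕ, (Fin (m j) → ℂ) → Matrix (Fin (d j)) (Fin (d j)) ℂ),
    (∀ k, Measurable (u k) ∧ ∀ y, ‖u k y‖ = 1) ∧ (∀ k, Measurable (f k)) ∧
    (∀ k, ∀ᵐ y ∂ν, u k (S y) = f k (fun i => u i y) * u k y) ∧
    (∀ j, Measurable (v j)) ∧ (∀ j a b, Measurable fun z => P j z a b) ∧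
    (∀ j z, P j z ∈ Matrix.unitaryGroup (Fin (d j)) ℂ) ∧
    (∀ j, ∀ᵐ y ∂ν, v j (S y) = (P j fun i => u i y).mulVec (v j y)) ∧
    ∃ A : Set Y, MeasurableSet A ∧ ν Aᶜ = 0 ∧ ∀ y ∈ A, ∀ y' ∈ A,
      (∀ k, u k y = u k y') → (∀ j, v j y = v j y') → y = y'

end Pool.Agent.Helper40.ZQP
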