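import Pool.Agent.Helper40.ZP.Pub
import Pool.Agent.Helper40.ZQ.Pub
import Pool.Agent.Helper40.DZ.Pub
import Pool.Agent.Helper98.ZB.Stmts

/-!
The last step: from the statement ZBM of the sheet ZB to the hand-in.
-/

open Finset Filter MeasureTheory Topology
open scoped ComplexConjugate

namespace Pool.Agent.Helper40.ZQ

open Pool.Agent.Helper98.ZA (pr Un ST_ZAC)
open Pool.Agent.Helper98.ZB (Tw Ev Cl ST_ZBM)
open Pool.Agent.Helper16.AZ (E Op)
open Pool.Agent.Helper40.ZPP (UniquelyErgodic)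
open Pool.Agent.Helper40.ZQP (Tower)
open Pool.Agent.Helper40.DZP (Vanish)

/-- the operator of a matrix -/
noncomputable def mo {d : ℕ} (M : Matrix (Fin d) (Fin d) ℂ) : Op d := Matrix.toEuclideanCLM (𝕜 := ℂ) M

theorem mo_unitary {d : ℕ} {M : Matrix (Fin d) (Fin d) ℂ} (h : M ∈ Matrix.unitaryGroup (Fin d) ℂ) :
    mo M ∈ unitary (Op d) := by
  have h1 := (Matrix.mem_unitaryGroup_iff').1 h
  have h2 := (Matrix.mem_unitaryGroup_iff).1 h
  refine Unitary.mem_iff.2 ⟨?_, ?_⟩
  · rw [mo, ← map_star, ← map_mul, h1, map_one]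
  · rw [mo, ← map_star, ← map_mul, h2, map_one]

theorem mo_apply {d : ℕ} (M : Matrix (Fin d) (Fin d) ℂ) (x : Fin d → ℂ) :
    mo M (WithLp.toLp 2 x) = WithLp.toLp 2 (M.mulVec x) := by
  rw [mo]
  exact Matrix.toEuclideanCLM_toLp M x

theorem mo_sum {d : ℕ} (M : Matrix (Fin d) (Fin d) ℂ) :
    mo M = ∑ a, ∑ b, M a b • mo (Matrix.single a b (1 : ℂ)) := by
  conv_lhs => rw [Matrix.matrix_eq_sum_single M]
  simp only [mo, map_sum]
  refine Finset.sum_congr rfl fun a _ => Finset.sum_congr rfl fun b _ => ?_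
  rw [← map_smul, Matrix.smul_single, smul_eq_mul, mul_one]

theorem mo_meas {d : ℕ} {Z : Type} [MeasurableSpace Z] {P : Z → Matrix (Fin d) (Fin d) ℂ}
    (h : ∀ a b, Measurable fun z => P z a b) : StronglyMeasurable fun z => mo (P z) := by
  simp_rw [mo_sum (P _)]
  refine Finset.stronglyMeasurable_fun_sum _ fun a _ => Finset.stronglyMeasurable_fun_sum _ fun b _ => ?_
  exact (h a b).stronglyMeasurable.smul_const _

/-- normalisation of an equivariant vector function -/
theorem norm_const {Y : Type} [MeasurableSpace Y] {ν : Measure Y} [IsProbabilityMeasure ν]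
    {S : Y → Y} (hS : Ergodic S ν) {d : ℕ} {w : Y → E d} (hw : Measurable w)
    (h : ∀ᵐ y ∂ν, ‖w (S y)‖ = ‖w y‖) : ∃ c : ℝ, 0 ≤ c ∧ ∀ᵐ y ∂ν, ‖w y‖ = c := by
  have h1 : (fun y => ‖w y‖) ∘ S =ᵐ[ν] fun y => ‖w y‖ := by
    filter_upwards [h] with y hy using hy
  obtain ⟨c, hc⟩ := hS.ae_eq_const_of_ae_eq_comp_ae hw.norm.aestronglyMeasurable h1
  have hc' : ∀ᵐ y ∂ν, ‖w y‖ = c := by filter_upwards [hc] with y hy using hy
  obtain ⟨y, hy⟩ := hc'.exists
  exact ⟨c, hy ▸ norm_nonneg _, hc'⟩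

theorem cl_of {Y : Type} [MeasurableSpace Y] [StandardBorelSpace Y] {ν : Measure Y}
    [IsProbabilityMeasure ν] {S : Y → Y} (hE : Ergodic S ν) (h : Tower S ν) :
    ∃ (u : ℕ → Y → ℂ) (k d : ℕ → ℕ) (φ : ∀ j, (Fin (k j) → ℂ) → Op (d j)) (e : ∀ j, Y → E (d j)),
      Cl ν S u k d φ e := by
  obtain ⟨u, f, d, m, v, P, hu, hf, huS, hv, hP, hPu, hvS, A, hA, hA0, hinj⟩ := h
  let w : ∀ j, Y → E (d j) := fun j y => WithLp.toLp 2 (v j y)
  have hwm : ∀ j, Measurable (w j) := fun j =>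
    (WithLp.measurable_toLp 2 _).comp (hv j)
  have hw : ∀ j, ∀ᵐ y ∂ν, w j (S y) = mo (P j (pr u (m j) y)) (w j y) := by
    intro j
    filter_upwards [hvS j] with y hy
    show WithLp.toLp 2 (v j (S y)) = _
    rw [hy]
    exact (mo_apply _ _).symm
  have hn : ∀ j, ∃ c : ℝ, 0 ≤ c ∧ ∀ᵐ y ∂ν, ‖w j y‖ = c := fun j => by
    refine norm_const hE (hwm j) ?_
    filter_upwards [hw j] with y hy
    rw [hy]
    exact Unitary.norm_map ⟨_, mo_unitary (hPu j _)⟩ _
  choose c hc0 hc using hn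
  let e : ∀ j, Y → E (d j) := fun j y =>
    if ‖w j y‖ ≤ c j then ((c j + 1)⁻¹ : ℝ) • w j y else 0
  have hem : ∀ j, Measurable (e j) := fun j =>
    Measurable.ite (measurableSet_le (hwm j).norm measurable_const)
      ((hwm j).const_smul ((c j + 1)⁻¹ : ℝ)) measurable_const
  have hee : ∀ j, ∀ᵐ y ∂ν, e j y = ((c j + 1)⁻¹ : ℝ) • w j y := by
    intro j
    filter_upwards [hc j] with y hy
    simp only [e, hy, le_refl, if_true]
  have hmp : MeasurePreserving S ν ν := hE.toMeasurePreserving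
  refine ⟨u, m, d, fun j z => mo (P j z), e, ⟨⟨fun k => (hu k).1, fun k => (hu k).2, fun k =>
    ⟨f k, hf k, ?_⟩⟩, fun j => ⟨fun z => mo_unitary (hPu j z), mo_meas (hP j), hem j, fun y => ?_, ?_⟩,
    fun s hs => ?_⟩⟩
  · filter_upwards [huS k] with y hy
    rw [hy, mul_comm]
  · show ‖if ‖w j y‖ ≤ c j then ((c j + 1)⁻¹ : ℝ) • w j y else 0‖ ≤ 1
    split_ifs with hy
    · have h1 : 0 < c j + 1 := by linarith [hc0 j]
      rw [norm_smul, Real.norm_eq_abs, abs_of_pos (inv_pos.2 h1), inv_mul_le_iff₀ h1]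
      linarith
    · simp
  · filter_upwards [hw j, hee j, hmp.quasiMeasurePreserving.ae (hee j)] with y h1 h2 h3
    rw [h3, h2, h1]
    exact (ContinuousLinearMap.map_smul_of_tower _ _ _).symm
  · let A' : Set Y := A ∩ {y | ∀ j, ‖w j y‖ = c j}
    have hA' : MeasurableSet A' := hA.inter (by
      rw [Set.ofPred_forall]
      exact MeasurableSet.iInter fun j => measurableSet_eq_fun (hwm j).norm measurable_const)
    have hst : StandardBorelSpace A' := hA'.standardBorel
    let U : Y → (ℕ → ℂ) × (∀ j, E (d j)) := fun y => (fun k => u k y, fun j => e j y)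
    have hUm : ∀ M : MeasurableSpace Y, (∀ k, Measurable[M] (u k)) → (∀ j, Measurable[M] (e j)) →
        Measurable[M] U := fun M h1 h2 =>
      @Measurable.prodMk Y M (ℕ → ℂ) (∀ j, E (d j)) _ _ (fun y k => u k y) (fun y j => e j y)
        (@measurable_pi_lambda Y ℕ (fun _ => ℂ) M _ _ h1)
        (@measurable_pi_lambda Y ℕ (fun j => E (d j)) M _ _ h2)
    have hU : Measurable (fun y : A' => U y.1) :=
      (hUm _ (fun k => (hu k).1) hem).comp measurable_subtype_coe
    have hUi : Function.Injective (fun y : A' => U y.1) := by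
      intro y y' hyy
      refine Subtype.ext (hinj y.1 y.2.1 y'.1 y'.2.1 (fun k => congrFun (congrArg Prod.fst hyy) k)
        fun j => ?_)
      have h1 : e j y.1 = e j y'.1 := congrFun (congrArg Prod.snd hyy) j
      have h2 : ∀ z : A', e j z.1 = ((c j + 1)⁻¹ : ℝ) • w j z.1 := by
        intro z
        have := z.2.2 j
        simp only [e, this, le_refl, if_true]
      rw [h2, h2] at h1
      have h3 : ((c j + 1)⁻¹ : ℝ) ≠ 0 := by
        have := hc0 j
        positivity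
      have h4 : w j y.1 = w j y'.1 := smul_right_injective _ h3 h1
      exact (WithLp.toLp_injective 2) h4
    have hEm : MeasurableEmbedding (fun y : A' => U y.1) := hU.measurableEmbedding hUi
    have hW : MeasurableSet ((fun y : A' => U y.1) '' (Subtype.val ⁻¹' s)) :=
      hEm.measurableSet_image.2 (measurable_subtype_coe hs)
    have hsup : Measurable[(⨆ k, MeasurableSpace.comap (u k) inferInstance) ⊔
        (⨆ j, MeasurableSpace.comap (e j) inferInstance)] U :=
      hUm _ (fun k => (comap_measurable (u k)).mono ((le_iSup (fun k =>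
        MeasurableSpace.comap (u k) (inferInstance : MeasurableSpace ℂ)) k).trans le_sup_left) le_rfl)
        (fun j => (comap_measurable (e j)).mono ((le_iSup (fun j =>
        MeasurableSpace.comap (e j) (inferInstance : MeasurableSpace (E (d j)))) j).trans
          le_sup_right) le_rfl)
    refine ⟨U ⁻¹' ((fun y : A' => U y.1) '' (Subtype.val ⁻¹' s)), hsup hW, ?_⟩
    have hae : ∀ᵐ y ∂ν, y ∈ A' := by
      have h1 : ∀ᵐ y ∂ν, y ∈ A := by
        rw [ae_iff]
        exact hA0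
      have h2 : ∀ᵐ y ∂ν, ∀ j, ‖w j y‖ = c j := ae_all_iff.2 hc
      filter_upwards [h1, h2] with y h3 h4 using ⟨h3, h4⟩
    refine eventuallyEq_set.2 ?_
    filter_upwards [hae] with y hy
    constructor
    · intro hys
      exact ⟨⟨y, hy⟩, hys, rfl⟩
    · rintro ⟨y', hy', he⟩
      have : y' = ⟨y, hy⟩ := hUi he
      rw [this] at hy'
      exact hy'

/-- the theorem -/
theorem fin (hZ : ST_ZBM) (hA : ST_ZAC) (Y : Type) [MetricSpace Y] [CompactSpace Y]
    [MeasurableSpace Y] [BorelSpace Y] (ν : Measure Y) (S : C(Y, Y)) (hS : UniquelyErgodic S ν)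
    (hT : Tower S ν) (F : C(Y, ℂ)) (y : Y) : Vanish S F y := by
  obtain ⟨h1, h2, h3⟩ := hS
  have hE : Ergodic S ν := (hA Y ν S S.continuous.measurable ⟨h2, h3⟩).1
  obtain ⟨u, k, d, φ, e, hC⟩ := cl_of hE hT
  exact (hZ Y ν S u k d φ e S.continuous ⟨h2, h3⟩ hC).2 F y

end Pool.Agent.Helper40.ZQ
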